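import Pool.Agent.Q209.MG.Core

/-!
Families with one parameter of subsets of `Y(1)^n × G_m^k` with partial degenerations: the members with
parameters in finitely generated multiplicative groups, and in sets of algebraic numbers whose minimal
polynomials have values with large prime factors (helper file).
-/

set_option autoImplicit false

namespace Pool.Agent.Q209.MG

open Pool.Agent
open MvPolynomial Pool.Agent.Y910.Z
open Pool.Agent.Q170.RG (order)
open Pool.Agent.Q209.MP (Cond PosAtM image)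
open Pool.Agent.Y152.RP.FamM (NoAtypical evalAt ManyPrimes)

/-- The members with parameters in finitely generated groups. -/
theorem groupMG (K : Subfield ℂ) [Countable K] (κ : Type) [Finite κ] (N n k₀ m M L : ℕ)
    (hL0 : 0 < L)
    (G : κ → MvPolynomial (Fin (N + 1)) (Polynomial K)) (hG : ∀ l, ∃ e, (G l).IsHomogeneous e)
    (A B : Fin n ⊕ Fin k₀ → MvPolynomial (Fin (N + 1)) (Polynomial K)) (δ : Fin n ⊕ Fin k₀ → ℕ)
    (hA : ∀ i, (A i).IsHomogeneous (δ i)) (hB : ∀ i, (B i).IsHomogeneous (δ i))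
    (c : Fin n ⊕ Fin k₀ → Polynomial K) (hc : ∀ i, c i ≠ 0)
    (c' : Fin k₀ → Polynomial K) (hc' : ∀ i, c' i ≠ 0) (D : Fin M → Finset ℂ)
    (hD : ∀ l, ∀ α ∈ D l, IsAlgebraic K α)
    (hind : ∀ (f : Fin L → Fin M) (α : Fin L → ℂ), Function.Injective f →
      (∀ l, α l ∈ D (f l)) → ∃ (τ : ℕ) (β : ℕ → ℕ),
        (∀ s ≤ m + 1, β s + (m + 1 - s) * (τ + 1) + 1 ≤ L) ∧
        Cond m τ β (fun l i => order (c i) (α l)) (fun l j => order (c' j) (α l)))
    (hpos : ∀ l, ∀ α ∈ D l, PosAtM m G A B c α)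
    (hM : ∀ I : Finset (Fin M), M + 1 ≤ I.card + L → ∃ l ∈ I, ∃ α ∈ D l, α ≠ 0)
    (Γ : Finset ℂ) (hΓ : ∀ γ ∈ Γ, IsAlgebraic K γ) (F : Finset ℂ)
    (hF : ∀ z ∈ F, z ≠ 0 ∧ IsAlgebraic K z) :
    {t : ℂ | (∃ k : ℂ → ℤ, t = ∏ z ∈ F, z ^ k z) ∧
      ¬ NoAtypical (algebraMap (Algebra.adjoin ℤ (Γ : Set ℂ)) ℂ) K m
        (image (evalAt K t) G A B c c')}.Finite := by
  classical
  let kk := algebraicClosure K ℂ
  have hcl : IsAlgClosure K kk := inferInstance
  have hac : IsAlgClosed kk := hcl.isAlgClosed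
  have hc0k : CharZero kk := inferInstance
  have hlift : ∀ S : Finset ℂ, (∀ z ∈ S, IsAlgebraic K z) → ∃ S' : Finset kk,
      (∀ z : kk, z ∈ S' ↔ algebraMap kk ℂ z ∈ S) ∧
      algebraMap kk ℂ '' (S' : Set kk) = (S : Set ℂ) := by
    intro S hS
    have hmem : ∀ z ∈ S, z ∈ algebraicClosure K ℂ := fun z hz =>
      mem_algebraicClosure_iff'.2 (hS z hz).isIntegral
    have h1 : ∀ z : kk, z ∈ (S.attach.image fun z => (⟨z.1, hmem z.1 z.2⟩ : kk)) ↔
        algebraMap kk ℂ z ∈ S := by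
      intro z
      constructor
      · intro hz
        obtain ⟨w, _, hw⟩ := Finset.mem_image.1 hz
        rw [← hw]
        exact w.2
      · intro hz
        exact Finset.mem_image.2 ⟨⟨z.1, hz⟩, Finset.mem_attach _ _, rfl⟩
    refine ⟨S.attach.image fun z => ⟨z.1, hmem z.1 z.2⟩, h1, ?_⟩
    ext z
    constructor
    · rintro ⟨w, hw, rfl⟩
      exact (h1 w).1 hw
    · intro hz
      exact ⟨⟨z, hmem z hz⟩, (h1 _).2 hz, rfl⟩
  obtain ⟨F', hF1, hF'⟩ := hlift F fun z hz => (hF z hz).2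
  choose D' hD' hD'im using fun l => hlift (D l) (hD l)
  let F2 : Finset kk := F' ∪ F'.image fun z => z⁻¹
  obtain ⟨W₀, hW₀, hΩ, hDW, hcore⟩ := coreT K κ N n k₀ m M L G hG A B δ hA hB c hc c' hc' D hD
    hind hpos Γ hΓ (F2 : Set kk) F2.finite_toSet
  let W : Finset kk := hW₀.toFinset
  have hW : (W : Set kk) = W₀ := Set.Finite.coe_toFinset hW₀
  let Rt : Finset kk := Finset.univ.biUnion D'
  have hRt : ∀ α : kk, α ∈ Rt ↔ ∃ l, α ∈ D' l := by
    intro α
    simp only [Rt, Finset.mem_biUnion, Finset.mem_univ, true_and]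
  -- the elements of the group
  have hgrp : ∀ k : ℂ → ℤ, ∃ t' : kk, algebraMap kk ℂ t' = ∏ z ∈ F, z ^ k z ∧
      t' ∈ Subring.closure (F2 : Set kk) ∧ t'⁻¹ ∈ Subring.closure (F2 : Set kk) ∧ t' ≠ 0 := by
    intro k
    have h1 : ∀ z ∈ F', z ∈ Subring.closure (F2 : Set kk) ∧
        z⁻¹ ∈ Subring.closure (F2 : Set kk) ∧ z ≠ 0 := by
      intro z hz
      refine ⟨Subring.subset_closure (Finset.mem_coe.2 (Finset.mem_union_left _ hz)),
        Subring.subset_closure (Finset.mem_coe.2 (Finset.mem_union_right _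
          (Finset.mem_image_of_mem _ hz))), ?_⟩
      rintro rfl
      exact (hF _ ((hF1 _).1 hz)).1 (map_zero _)
    have h2 : ∀ (z : kk) (e : ℤ), z ∈ Subring.closure (F2 : Set kk) →
        z⁻¹ ∈ Subring.closure (F2 : Set kk) → z ^ e ∈ Subring.closure (F2 : Set kk) := by
      intro z e hz hz'
      rcases e with e | e
      · rw [Int.ofNat_eq_natCast, zpow_natCast]
        exact pow_mem hz e
      · rw [zpow_negSucc, ← inv_pow]
        exact pow_mem hz' _
    refine ⟨∏ z ∈ F', z ^ k (algebraMap kk ℂ z), ?_, ?_, ?_, ?_⟩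
    · rw [map_prod]
      have h3 : F = F'.image (algebraMap kk ℂ) := by
        ext z
        rw [← Finset.mem_coe, ← hF']
        simp
      rw [h3, Finset.prod_image fun x _ y _ h => (algebraMap kk ℂ).injective h]
      refine Finset.prod_congr rfl fun z _ => ?_
      rw [map_zpow₀]
    · exact prod_mem fun z hz => h2 z _ (h1 z hz).1 (h1 z hz).2.1
    · rw [← Finset.prod_inv_distrib]
      refine prod_mem fun z hz => ?_
      rw [← zpow_neg]
      exact h2 z _ (h1 z hz).1 (h1 z hz).2.1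
    · exact Finset.prod_ne_zero_iff.2 fun z hz => zpow_ne_zero _ (h1 z hz).2.2
  let E : Set kk := {t | t⁻¹ ∈ Subring.closure (F2 : Set kk) ∧ t ≠ 0 ∧ t ∉ Rt ∧
    ¬ NoAtypical (algebraMap (Algebra.adjoin ℤ (Γ : Set ℂ)) ℂ) K m
      (image (evalAt K (algebraMap kk ℂ t)) G A B c c')}
  have hLe : L - 1 + 1 = L := by omega
  have h1 := finite_ring (L := L - 1) W F2 (fun l => insert 0 (D' l))
    (fun I hI => by
      obtain ⟨l, hl, α, hα, hα0⟩ := hM I (by omega)
      obtain ⟨a, ha, rfl⟩ : α ∈ algebraMap kk ℂ '' (D' l : Set kk) := by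
        rw [hD'im]
        exact hα
      have ha0 : a ≠ 0 := by
        rintro rfl
        exact hα0 (map_zero _)
      have h2 : ({0, a} : Finset kk) ⊆ I.biUnion fun l => insert 0 (D' l) := by
        intro z hz
        rw [Finset.mem_insert, Finset.mem_singleton] at hz
        rw [Finset.mem_biUnion]
        rcases hz with rfl | rfl
        · exact ⟨l, hl, Finset.mem_insert_self _ _⟩
        · exact ⟨l, hl, Finset.mem_insert_of_mem ha⟩
      have h3 := Finset.card_le_card h2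
      rwa [Finset.card_pair ha0.symm] at h3) E
    (fun t ht => by
      rintro ⟨f, hf, hp⟩
      rw [hW] at hp
      refine ht.2.2.2 (hcore t ?_ ?_)
      · intro l hl
        exact ht.2.2.1 ((hRt t).2 ⟨l, (hD' l t).2 hl⟩)
      · obtain ⟨f', hf', hp'⟩ : ∃ f' : Fin L → Fin M, Function.Injective f' ∧
            ∀ l, ∃ a ∈ insert 0 (D' (f' l)), ¬ Bad W₀ t a := by
          rw [← hLe]
          exact ⟨f, hf, hp⟩
        refine ⟨f', hf', fun l => ?_⟩
        obtain ⟨a, ha, hb⟩ := hp' l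
        rw [Finset.mem_insert] at ha
        rcases ha with rfl | ha
        · exfalso
          refine hb ⟨ht.2.1, ?_⟩
          rw [sub_zero]
          exact Subring.closure_mono (hΩ.trans (Set.subset_insert _ _)) ht.1
        · have haD : algebraMap kk ℂ a ∈ D (f' l) := (hD' _ _).1 ha
          have hta : t ≠ a := by
            rintro rfl
            exact ht.2.2.1 ((hRt _).2 ⟨_, ha⟩)
          obtain ⟨𝔭, h𝔭, hmem⟩ := exists_max W₀ (hDW a ⟨_, haD⟩) hta hb
          exact ⟨a, haD, 𝔭, h𝔭, _, hmem, rfl⟩)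
  refine ((h1.union Rt.finite_toSet).image (algebraMap kk ℂ)).subset ?_
  rintro t ⟨⟨k, rfl⟩, ht'⟩
  obtain ⟨t', ht1, ht2, ht3, ht4⟩ := hgrp k
  by_cases h2 : t' ∈ Rt
  · exact ⟨t', Or.inr h2, ht1⟩
  · refine ⟨t', Or.inl ⟨ht2, ht3, ht4, h2, ?_⟩, ht1⟩
    rw [ht1]
    exact ht'

/-- The members with parameters in a set of algebraic numbers whose minimal polynomials have values with
large prime factors. -/
theorem manyMG (K : Subfield ℂ) [Countable K] (κ : Type) [Finite κ] (N n k₀ m M L : ℕ)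
    (G : κ → MvPolynomial (Fin (N + 1)) (Polynomial K)) (hG : ∀ l, ∃ e, (G l).IsHomogeneous e)
    (A B : Fin n ⊕ Fin k₀ → MvPolynomial (Fin (N + 1)) (Polynomial K)) (δ : Fin n ⊕ Fin k₀ → ℕ)
    (hA : ∀ i, (A i).IsHomogeneous (δ i)) (hB : ∀ i, (B i).IsHomogeneous (δ i))
    (c : Fin n ⊕ Fin k₀ → Polynomial K) (hc : ∀ i, c i ≠ 0)
    (c' : Fin k₀ → Polynomial K) (hc' : ∀ i, c' i ≠ 0) (α : Fin M → ℚ)
    (hind : ∀ (f : Fin L → Fin M), Function.Injective f → ∃ (τ : ℕ) (β : ℕ → ℕ),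
        (∀ s ≤ m + 1, β s + (m + 1 - s) * (τ + 1) + 1 ≤ L) ∧
        Cond m τ β (fun l i => order (c i) ((α (f l) : ℚ) : ℂ))
          (fun l j => order (c' j) ((α (f l) : ℚ) : ℂ)))
    (hpos : ∀ l, PosAtM m G A B c ((α l : ℚ) : ℂ))
    (Γ : Finset ℂ) (hΓ : ∀ γ ∈ Γ, IsAlgebraic K γ) (P : Set ℂ) (hP : ∀ t ∈ P, IsAlgebraic ℤ t)
    (hmany : ManyPrimes P L α) :
    {t : ℂ | t ∈ P ∧ ¬ NoAtypical (algebraMap (Algebra.adjoin ℤ (Γ : Set ℂ)) ℂ) K m
        (image (evalAt K t) G A B c c')}.Finite := by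
  classical
  let kk := algebraicClosure K ℂ
  have hcl : IsAlgClosure K kk := inferInstance
  have hac : IsAlgClosed kk := hcl.isAlgClosed
  have hc0k : CharZero kk := inferInstance
  obtain ⟨W₀, hW₀, -, hDW, hcore⟩ := coreT K κ N n k₀ m M L G hG A B δ hA hB c hc c' hc'
    (fun l => {((α l : ℚ) : ℂ)}) (fun l a ha => by
      rw [Finset.mem_singleton] at ha
      rw [ha]
      have h1 : ((α l : ℚ) : ℂ) = algebraMap K ℂ ((α l : ℚ) : K) := by
        rw [map_ratCast]
      rw [h1]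
      exact isAlgebraic_algebraMap _)
    (fun f a hf ha => by
      have h1 : a = fun l => ((α (f l) : ℚ) : ℂ) := by
        funext l
        exact Finset.mem_singleton.1 (ha l)
      rw [h1]
      exact hind f hf)
    (fun l a ha => by
      rw [Finset.mem_singleton] at ha
      rw [ha]
      exact hpos l)
    Γ hΓ ∅ Set.finite_empty
  have hcast : ∀ q : ℚ, algebraMap kk ℂ ((q : ℚ) : kk) = (q : ℂ) := fun q => map_ratCast _ q
  obtain ⟨D₀, hD₀⟩ := Pool.Agent.Y152.RP.exists_placesU (k := kk) (L := L) W₀ hW₀ α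
  refine ((hmany D₀).union (Set.finite_range fun l => ((α l : ℚ) : ℂ))).subset ?_
  rintro t ⟨htd, ht⟩
  by_cases htα : t ∈ Set.range fun l => ((α l : ℚ) : ℂ)
  · exact Or.inr htα
  refine Or.inl ⟨htd, ?_⟩
  rintro ⟨f, hf, F, hF, hFt, hp⟩
  obtain ⟨t', rfl⟩ : ∃ t' : kk, algebraMap kk ℂ t' = t := by
    have h1 : IsAlgebraic ℤ t := hP t htd
    have h2 : IsAlgebraic K t := h1.extendScalars (Int.cast_injective (α := K))
    exact ⟨⟨t, mem_algebraicClosure_iff.2 h2⟩, rfl⟩
  refine ht (hcore t' (fun l hl => ?_) ⟨f, hf, fun l => ?_⟩)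
  · exact htα ⟨l, (Finset.mem_singleton.1 hl).symm⟩
  obtain ⟨V, hV1, hVW, -⟩ := hD₀ t' f F hF hFt hp Empty (fun a => a.elim)
    algebraicIndependent_empty_type l
  set a : kk := ((α (f l) : ℚ) : kk) with ha
  have haD : algebraMap kk ℂ a ∈ ({((α (f l) : ℚ) : ℂ)} : Finset ℂ) := by
    rw [Finset.mem_singleton, ha, hcast]
  have haV : algebraMap kk ℂ a ∈ V := hVW a (hDW a ⟨f l, haD⟩)
  have htV : algebraMap kk ℂ t' ∈ V := by
    have h1 : algebraMap kk ℂ (t' - a) ∈ V := (ValuationSubring.valuation_le_one_iff _ _).1 hV1.le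
    have h2 : algebraMap kk ℂ t' = algebraMap kk ℂ (t' - a) + algebraMap kk ℂ a := by
      rw [← map_add, sub_add_cancel]
    rw [h2]
    exact V.add_mem _ _ h1 haV
  have hle : ∀ z ∈ Subring.closure (insert t' W₀), algebraMap kk ℂ z ∈ V := by
    have h1 : Subring.closure (insert t' W₀) ≤ V.toSubring.comap (algebraMap kk ℂ) := by
      rw [Subring.closure_le]
      intro z hz
      rcases hz with rfl | hz
      · exact htV
      · exact hVW z hz
    exact fun z hz => h1 hz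
  let φ : Subring.closure (insert t' W₀) →+* V :=
    ((algebraMap kk ℂ).comp (Subring.closure (insert t' W₀)).subtype).codRestrict V.toSubring
      fun z => hle z z.2
  have hmem : t' - a ∈ Subring.closure (insert t' W₀) := sub_mem
    (Subring.subset_closure (Set.mem_insert _ _))
    (Subring.subset_closure (Set.mem_insert_of_mem _ (hDW a ⟨f l, haD⟩)))
  refine ⟨a, haD, (IsLocalRing.maximalIdeal V).comap φ, Ideal.comap_isPrime _ _,
    ⟨t' - a, hmem⟩, ?_, rfl⟩
  rw [Ideal.mem_comap, ValuationSubring.valuation_lt_one_iff]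
  exact hV1

end Pool.Agent.Q209.MG
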