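import Pool.Agent.Q209.MP.FG
import Pool.Agent.Y152.RP.Main
import Pool.Agent.Y152.RP.PlaceM

/-!
Families with one parameter of subsets of `Y(1)^n × G_m^k` with partial degenerations: the members with
algebraic parameters which are near to the degenerate ones at suitable prime ideals (helper file;
adapted from `Pool.Agent.Q209.MP.FG`).
-/

set_option autoImplicit false

namespace Pool.Agent.Q209.MG

open Pool.Agent
open H294ZP UpperHalfPlane MvPolynomial Pool.Agent.W282.ZP Pool.Agent.Y910.Z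
open Pool.Agent.TH526.ZL (spec coefs1 coefs1_finite coefsT coefsT_finite)
open Pool.Agent.Q170.RG (order int_up hom_lift)
open Pool.Agent.Q170.PD (IndPos W0 W0_map W0_spec W0_ne)
open Pool.Agent.Q209.MP (needs Cond PosAtM nearSM criterionMP noAtypicalM_pt image)
open Pool.Agent.Y152.RP.FamM (SpecialVariety SpecialVariety.locus coset NoAtypical evalAt
  rel_of_locus)

/-- The members with algebraic parameters which are near to the degenerate ones at suitable prime
ideals. -/
theorem coreT (K : Subfield ℂ) [Countable K] (κ : Type) [Finite κ] (N n k₀ m M L : ℕ)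
    (G : κ → MvPolynomial (Fin (N + 1)) (Polynomial K)) (hG : ∀ l, ∃ e, (G l).IsHomogeneous e)
    (A B : Fin n ⊕ Fin k₀ → MvPolynomial (Fin (N + 1)) (Polynomial K)) (δ : Fin n ⊕ Fin k₀ → ℕ)
    (hA : ∀ i, (A i).IsHomogeneous (δ i)) (hB : ∀ i, (B i).IsHomogeneous (δ i))
    (c : Fin n ⊕ Fin k₀ → Polynomial K) (hc : ∀ i, c i ≠ 0)
    (c' : Fin k₀ → Polynomial K) (hc' : ∀ i, c' i ≠ 0) (D : Fin M → Finset ℂ)
    (hD : ∀ l, ∀ α ∈ D l, IsAlgebraic K α)
    (hind : ∀ (f : Fin L → Fin M) (α : Fin L → ℂ), Function.Injective f →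
      (∀ l, α l ∈ D (f l)) → ∃ (τ : ℕ) (β : ℕ → ℕ),
        (∀ s ≤ m + 1, β s + (m + 1 - s) * (τ + 1) + 1 ≤ L) ∧
        Cond m τ β (fun l i => order (c i) (α l)) (fun l j => order (c' j) (α l)))
    (hpos : ∀ l, ∀ α ∈ D l, PosAtM m G A B c α)
    (Γ : Finset ℂ) (hΓ : ∀ γ ∈ Γ, IsAlgebraic K γ) (Ω : Set (algebraicClosure K ℂ))
    (hΩ : Ω.Finite) :
    ∃ W : Set (algebraicClosure K ℂ), W.Finite ∧ Ω ⊆ W ∧
      (∀ a : algebraicClosure K ℂ, (∃ l, algebraMap _ ℂ a ∈ D l) → a ∈ W) ∧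
      ∀ t : algebraicClosure K ℂ, (∀ l, algebraMap _ ℂ t ∉ D l) →
      (∃ f : Fin L → Fin M, Function.Injective f ∧ ∀ l, ∃ a : algebraicClosure K ℂ,
        algebraMap _ ℂ a ∈ D (f l) ∧ ∃ 𝔭 : Ideal (Subring.closure (insert t W)), 𝔭.IsPrime ∧
          ∃ z ∈ 𝔭, (z : algebraicClosure K ℂ) = t - a) →
      NoAtypical (algebraMap (Algebra.adjoin ℤ (Γ : Set ℂ)) ℂ) K m
        (image (evalAt K (algebraMap _ ℂ t)) G A B c c') := by
  classical
  let kk := algebraicClosure K ℂ
  have hcl : IsAlgClosure K kk := inferInstance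
  have hac : IsAlgClosed kk := hcl.isAlgClosed
  have hc0k : CharZero kk := inferInstance
  let φ : Polynomial K →+* Polynomial kk := Polynomial.mapRingHom (algebraMap K kk)
  have hφinj : Function.Injective φ := Polynomial.map_injective _ (algebraMap K kk).injective
  have hev : ∀ (t : kk), (algebraMap kk ℂ).comp ((Polynomial.evalRingHom t).comp φ) =
      evalAt K (algebraMap kk ℂ t) := by
    intro t
    refine Polynomial.ringHom_ext (fun a => ?_) ?_
    · simp only [φ, evalAt, RingHom.comp_apply, Polynomial.coe_mapRingHom, Polynomial.map_C,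
        Polynomial.coe_evalRingHom, Polynomial.eval_C, AlgHom.toRingHom_eq_coe, RingHom.coe_coe,
        Polynomial.aeval_C]
      rfl
    · simp only [φ, evalAt, RingHom.comp_apply, Polynomial.coe_mapRingHom, Polynomial.map_X,
        Polynomial.coe_evalRingHom, Polynomial.eval_X, AlgHom.toRingHom_eq_coe, RingHom.coe_coe,
        Polynomial.aeval_X]
  have hspec : ∀ (t : kk) (P : MvPolynomial (Fin (N + 1)) (Polynomial K)) (y : Fin (N + 1) → ℂ),
      aeval y (spec t (MvPolynomial.map φ P)) =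
        eval₂ (evalAt K (algebraMap kk ℂ t)) y P := by
    intro t P y
    rw [spec, MvPolynomial.map_map, aeval_def, eval₂_map, hev]
  have hmult0 : ∀ (α : kk) (p : Polynomial K), (φ p).rootMultiplicity α =
      order p (algebraMap kk ℂ α) := by
    intro α p
    have h1 := Polynomial.eq_rootMultiplicity_map (p := φ p) (f := algebraMap kk ℂ)
      (algebraMap kk ℂ).injective α
    rw [h1]
    simp only [φ, order, Polynomial.coe_mapRingHom, Polynomial.map_map]
    rfl
  -- all the functions of the parameter together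
  let cc : (Fin n ⊕ Fin k₀) ⊕ Fin k₀ → Polynomial K := Sum.elim c c'
  have hcc : ∀ i, cc i ≠ 0 := by
    rintro (i | j)
    · exact hc i
    · exact hc' j
  have hmult : ∀ (α : kk) (i : (Fin n ⊕ Fin k₀) ⊕ Fin k₀), (φ (cc i)).rootMultiplicity α =
      order (cc i) (algebraMap kk ℂ α) := fun α i => hmult0 α _
  -- finite sets of algebraic numbers
  have hlift : ∀ S : Finset ℂ, (∀ z ∈ S, IsAlgebraic K z) → ∃ S' : Finset kk,
      (∀ z : kk, z ∈ S' ↔ algebraMap kk ℂ z ∈ S) ∧
      algebraMap kk ℂ '' (S' : Set kk) = (S : Set ℂ) := by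
    intro S hS
    have hmem : ∀ z ∈ S, z ∈ algebraicClosure K ℂ := fun z hz =>
      mem_algebraicClosure_iff'.2 (hS z hz).isIntegral
    have h1 : ∀ z : kk, z ∈ (S.attach.image fun z => (⟨z.1, hmem z.1 z.2⟩ : kk)) ↔
        algebraMap kk ℂ z ∈ S := by
      intro z
      constructor
      · intro hz
        obtain ⟨w, _, hw⟩ := Finset.mem_image.1 hz
        rw [← hw]
        exact w.2
      · intro hz
        exact Finset.mem_image.2 ⟨⟨z.1, hz⟩, Finset.mem_attach _ _, rfl⟩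
    refine ⟨S.attach.image fun z => ⟨z.1, hmem z.1 z.2⟩, h1, ?_⟩
    ext z
    constructor
    · rintro ⟨w, hw, rfl⟩
      exact (h1 w).1 hw
    · intro hz
      exact ⟨⟨z, hmem z hz⟩, (h1 _).2 hz, rfl⟩
  obtain ⟨Γf, -, hΓf⟩ := hlift Γ hΓ
  let Γ' : Set kk := (Γf : Set kk)
  have hΓ' : algebraMap kk ℂ '' Γ' = (Γ : Set ℂ) := hΓf
  choose D' hD' hD'im using fun l => hlift (D l) (hD l)
  have hcard : ∀ I : Finset (Fin M), (I.biUnion D').card = (I.biUnion D).card := by
    intro I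
    rw [← Finset.card_image_of_injective (I.biUnion D') (algebraMap kk ℂ).injective]
    congr 1
    ext z
    simp only [Finset.mem_image, Finset.mem_biUnion]
    constructor
    · rintro ⟨w, ⟨l, hl, hw⟩, rfl⟩
      exact ⟨l, hl, (hD' l w).1 hw⟩
    · rintro ⟨l, hl, hz⟩
      have h1 : z ∈ algebraMap kk ℂ '' (D' l : Set kk) := by
        rw [hD'im]
        exact hz
      obtain ⟨w, hw, hwz⟩ := h1
      exact ⟨w, ⟨l, hl, hw⟩, hwz⟩
  let Rt : Finset kk := Finset.univ.biUnion D'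
  have hRt : ∀ α : kk, α ∈ Rt ↔ ∃ l, α ∈ D' l := by
    intro α
    simp only [Rt, Finset.mem_biUnion, Finset.mem_univ, true_and]
  let ρt : Fin Rt.card → kk := fun l => (Rt.equivFin.symm l : kk)
  have hρ : ∀ α ∈ Rt, ∃ l, ρt l = α := by
    intro α hα
    refine ⟨Rt.equivFin ⟨α, hα⟩, ?_⟩
    simp [ρt]
  have hρ' : ∀ l, ρt l ∈ Rt := fun l => (Rt.equivFin.symm l).2
  have hc0 : ∀ i, φ (cc i) ≠ 0 := fun i => (map_ne_zero_iff φ hφinj).2 (hcc i)
  let nd : Fin Rt.card → Fin n ⊕ Fin k₀ → ℕ := fun l =>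
    needs fun i => order (c i) (algebraMap kk ℂ (ρt l))
  obtain ⟨W₀, hW₀, hΓW₀, hρW₀, hnear⟩ := nearSM (k := kk) (m := m) (M := Rt.card)
    (fun i => MvPolynomial.map φ (G i)) (fun i => MvPolynomial.map φ (A i))
    (fun i => MvPolynomial.map φ (B i)) (fun i => φ (cc i)) ρt nd hc0
    (fun l I hI y h1 h2 => by
      by_contra h0
      obtain ⟨l', hl'⟩ := (hRt _).1 (hρ' l)
      obtain ⟨i, hi, h3, h4⟩ := hpos l' _ ((hD' _ _).1 hl') I hI y h0 (fun i => by
        have h4 := h1 i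
        rw [hspec] at h4
        exact h4)
      have h5 := h2 i hi
      rw [← W0_map, hspec] at h5
      exact (W0_ne _ _ _ _ _).2 ⟨h3, fun h6 => h4 h6⟩ h5)
    (Γ' ∪ Ω) ((Set.toFinite _).union hΩ)
  refine ⟨W₀, hW₀, fun z hz => hΓW₀ (Or.inr hz), ?_, ?_⟩
  · rintro a ⟨l, hl⟩
    obtain ⟨l', hl'⟩ := hρ a ((hRt a).2 ⟨l, (hD' l a).2 hl⟩)
    rw [← hl']
    exact hρW₀ l'
  · rintro t htRt' ⟨f, hf, hp⟩
    have htRt : t ∉ Rt := by
      intro h
      obtain ⟨l, hl⟩ := (hRt t).1 h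
      exact htRt' l ((hD' l t).1 hl)
    choose α hα' 𝔭 h𝔭 hmem𝔭 using hp
    have hα : ∀ l, α l ∈ D' (f l) := fun l => (hD' _ _).2 (hα' l)
    have hαRt : ∀ l, α l ∈ Rt := fun l => (hRt _).2 ⟨_, hα l⟩
    have hαW : ∀ l, α l ∈ W₀ := by
      intro l
      obtain ⟨l', hl'⟩ := hρ _ (hαRt l)
      rw [← hl']
      exact hρW₀ l'
    have htα : ∀ l, t ≠ α l := by
      intro l h
      exact htRt (h ▸ hαRt l)
    obtain ⟨Λ, hΛ⟩ : ∃ Λ, Λ = Subring.closure (insert t W₀) := ⟨_, rfl⟩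
    subst hΛ
    let Λ : Subring kk := Subring.closure (insert t W₀)
    have hWΛ : W₀ ⊆ (Λ : Set kk) := fun z hz => Subring.subset_closure (Set.mem_insert_of_mem _ hz)
    let t' : Λ := ⟨t, Subring.subset_closure (Set.mem_insert _ _)⟩
    let r' : Fin L → Λ := fun l => ⟨α l, hWΛ (hαW l)⟩
    have hmem : ∀ l, t' - r' l ∈ 𝔭 l := fun l => by
      obtain ⟨z, hz, hz'⟩ := hmem𝔭 l
      have h1 : t' - r' l = z := Subtype.ext hz'.symm
      rw [h1]
      exact hz
    obtain ⟨G', A', B', cc', hG', hA', hB', hcc', hN⟩ := hnear Λ hWΛ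
    have hsub : Function.Injective Λ.subtype := Subtype.val_injective
    have hsub1 : Function.Injective (Polynomial.mapRingHom Λ.subtype) :=
      Polynomial.map_injective _ hsub
    let i1 : Algebra Λ ℂ := ((algebraMap kk ℂ).comp Λ.subtype).toAlgebra
    have hmapΛ : ∀ z : Λ, algebraMap Λ ℂ z = algebraMap kk ℂ (z : kk) := fun z => rfl
    have htower : IsScalarTower Λ kk ℂ := IsScalarTower.of_algebraMap_eq fun z => rfl
    have hinjC : Function.Injective (algebraMap Λ ℂ) := by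
      intro a b h
      exact hsub ((algebraMap kk ℂ).injective h)
    -- values
    have hval : ∀ (P : MvPolynomial (Fin (N + 1)) (Polynomial K))
        (P' : MvPolynomial (Fin (N + 1)) (Polynomial Λ)),
        MvPolynomial.map (Polynomial.mapRingHom Λ.subtype) P' = MvPolynomial.map φ P →
        ∀ y : Fin (N + 1) → ℂ, aeval y (spec t' P') =
          eval₂ (evalAt K (algebraMap kk ℂ t)) y P := by
      intro P P' hP y
      rw [← hspec t P y, ← hP]
      have h1 := map_spec P' _ rfl t'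
      change _ = aeval y (spec (t' : kk) _)
      rw [← h1, aeval_def, aeval_def, eval₂_map]
      rfl
    have hcval : ∀ i, algebraMap Λ ℂ ((cc' i).eval t') = evalAt K (algebraMap kk ℂ t) (cc i) := by
      intro i
      have h1 : (((cc' i).eval t' : Λ) : kk) = (φ (cc i)).eval t := by
        rw [← hcc' i, Polynomial.eval_map]
        exact (Polynomial.eval₂_at_apply Λ.subtype t').symm
      rw [hmapΛ, h1, ← hev t]
      rfl
    have hintΓ : ∀ z, (algebraMap (Algebra.adjoin ℤ (Γ : Set ℂ)) ℂ).IsIntegralElem z →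
        IsIntegral Λ z := by
      intro z hz
      refine int_up hinjC (Γ : Set ℂ) (fun g hg => ?_) hz
      rw [← hΓ'] at hg
      obtain ⟨g', hg', rfl⟩ := hg
      exact ⟨⟨g', hWΛ (hΓW₀ (Or.inl hg'))⟩, rfl⟩
    refine noAtypicalM_pt _ K _ (fun x hx => hx.1) ?_
    rintro r Z Mu η hη x ⟨hx0, y, hy0, hyG, hxy, hxy2⟩ hxZ hxC S hS
    have hSk : AlgebraicIndependent kk (fun i : S => x i) := hS.extendScalars kk
    have hSΛ : AlgebraicIndependent Λ (fun i : S => x i) := hSk.restrictScalars hsub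
    obtain ⟨τ, β, hL, hi1, hi2, hi3⟩ := hind f (fun l => algebraMap kk ℂ (α l)) hf
      (fun l => (hD' _ _).1 (hα l))
    refine criterionMP (Λ := Λ) (F := kk) (m := m) (L := L) β hL
      (fun i => spec t' (G' i)) ?_ (fun i => spec t' (A' i)) (fun i => spec t' (B' i)) δ ?_ ?_
      (fun i => (cc' (Sum.inl i)).eval t') (fun j => (cc' (Sum.inr j)).eval t') 𝔭
      (fun l i => order (c i) (algebraMap kk ℂ (α l)))
      (fun l j => order (c' j) (algebraMap kk ℂ (α l)))
      ?_ h𝔭 (fun l => t' - r' l) hmem ?_ ?_ ?_ hi1 hi2 hi3 Z.cls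
      (fun i => (Z.mat i).det.toNat) x Mu η ?_ ?_
      (fun i j l hi hj => by
        have h5 := rel_of_locus Z hxZ i j l hi hj
        rw [Int.toNat_mul (Z.det_pos i).le (Z.det_pos j).le] at h5
        exact h5) hx0 ?_ (fun j => (hη j).1) (fun j => hintΓ _ (hη j).2.1)
      (fun j => hintΓ _ (hη j).2.2) hxC.2 y hy0 ?_ ?_ ?_ S hSΛ hSk
    · intro i
      obtain ⟨e, he⟩ := hG i
      exact ⟨e, (hom_lift _ (hG' i) hsub1 (he.map φ)).map _⟩
    · intro i
      exact (hom_lift _ (hA' i) hsub1 ((hA i).map φ)).map _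
    · intro i
      exact (hom_lift _ (hB' i) hsub1 ((hB i).map φ)).map _
    · intro l F₁ _ φ₁ hker I hI y' hy0' hyG'
      obtain ⟨l', hl'⟩ := hρ _ (hαRt l)
      have h1 := hmem l
      rw [← hker, RingHom.mem_ker] at h1
      obtain ⟨i, hi, h2, h3⟩ := (hN l' (r' l) t' hl'.symm).1 F₁ φ₁ h1 I hI y' hy0' hyG'
      refine ⟨i, hi, h2, fun h4 => h3 ?_⟩
      simp only [nd]
      rw [hl']
      exact h4
    · intro l h0
      apply htα l
      have h1 : (((t' - r' l : Λ) : kk)) = 0 := (map_eq_zero (algebraMap kk ℂ)).1 h0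
      exact sub_eq_zero.1 h1
    · intro l i
      obtain ⟨l', hl'⟩ := hρ _ (hαRt l)
      obtain ⟨b, hb1, hb2⟩ := (hN l' (r' l) t' hl'.symm).2 (𝔭 l) (h𝔭 l) (hmem l) (Sum.inl i)
      refine ⟨1, b, fun h1 => (h𝔭 l).ne_top ((Ideal.eq_top_iff_one _).2 h1), hb1, ?_⟩
      rw [one_mul, hb2, hl', hmult]
      rfl
    · intro l j
      obtain ⟨l', hl'⟩ := hρ _ (hαRt l)
      obtain ⟨b, hb1, hb2⟩ := (hN l' (r' l) t' hl'.symm).2 (𝔭 l) (h𝔭 l) (hmem l) (Sum.inr j)
      refine ⟨1, b, fun h1 => (h𝔭 l).ne_top ((Ideal.eq_top_iff_one _).2 h1), hb1, ?_⟩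
      rw [one_mul, hb2, hl', hmult]
      rfl
    · intro i
      have := Z.det_pos i
      omega
    · intro i hi
      obtain ⟨z, hz⟩ := hxZ
      have e3 : x (Sum.inl i) = Z.const i := (hz i).1 hi
      rw [e3]
      rcases Z.allowed i with ⟨τ, hτ, hc⟩ | h
      · rw [hc]
        exact (singular_modulus_integral τ hτ).tower_top
      · exact hintΓ _ h
    · intro j
      have h4 : IsIntegral kk (η j) := (hintΓ _ (hη j).2.1).tower_top
      have h5 : IsAlgebraic kk (η j) := h4.isAlgebraic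
      have h6 : IsAlgebraic K (η j) := by
        have : Algebra.IsAlgebraic K kk := hcl.isAlgebraic
        exact h5.restrictScalars K
      exact ⟨⟨η j, mem_algebraicClosure_iff.2 h6⟩, rfl⟩
    · intro i
      rw [hval _ _ (hG' i)]
      exact hyG i
    · intro i
      rw [hval _ _ (hA' _), hval _ _ (hB' _), hcval]
      exact hxy i
    · intro j
      rw [hval _ _ (hA' _), hval _ _ (hB' _), hcval, hcval]
      exact hxy2 j

end Pool.Agent.Q209.MG
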